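import Pool.Agent.Helper10K9.BT.Der

/-!
# The basin of the two-cycle of `x (n + 1) = (α + x (n - 1)) / (A + B x n + x (n - 1))`

Let `0 < α`, `1 < B`, `0 ≤ A < 1` and `α < (B - 1) (1 - A) ^ 2 / 4`. The set `W` of the admissible
pairs `(u, v) = (x (-1), x 0)` whose solution converges to the equilibrium is the graph of a
continuous strictly increasing function `g` on `[0, ∞)` through the equilibrium. The function `g` is
the only nonnegative nondecreasing solution of `g (g u) (A + B g u + u) = α + u`; it has the slope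
`(√((B e) ^ 2 + 4 (1 - e) D) - B e) / (2 D)`, `D = A + (B + 1) e`, at the equilibrium `e`, and it
is bounded with a limit `L` with `g L = 1`. All pairs below the graph go to the two-cycle with
`(x (2 n), x (2 n + 1)) → (m, M)`, all pairs above the graph with the limit `(M, m)`. A pair belongs
to the graph if and only if no two terms `x n`, `n ≥ 0`, of the solution are strictly on different
sides of the equilibrium.

Proof. The map `(x (n - 1), x n) ↦ (x n, x (n + 1))` reverses the south-east order as long as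
`A + B x n ≥ α`, and if `A + B x n ≤ α` then the solution is caught by the two-cycle. The terms of
even and of odd index converge (they are monotone from some time on). Two solutions which converge
to the equilibrium are not comparable, since the differences of comparable solutions grow near the
equilibrium. A point and its image show that the diagonal is in the two open regions of attraction
of the two-cycle, and every vertical line meets both regions, so it meets `W`, in one point.
-/

set_option autoImplicit false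

open Filter Topology Set

namespace Pool.Agent.Results.MP_a0c75d_an.StableCurve

/-- the pairs of initial values `u = x (-1)`, `v = x 0` of the problem -/
def Admissible (A u v : ℝ) : Prop := 0 ≤ u ∧ 0 ≤ v ∧ (A = 0 → ¬ (u = 0 ∧ v = 0))

/-- `x 0, x 1, x 2, …` is the solution of the recurrence with `x (-1) = u` and `x 0 = v` -/
def IsSolution (α A B u v : ℝ) (x : ℕ → ℝ) : Prop :=
  x 0 = v ∧ x 1 = (α + u) / (A + B * v + u) ∧
    ∀ n, x (n + 2) = (α + x n) / (A + B * x (n + 1) + x n)

/-- the equilibrium -/
noncomputable def equilibrium (α A B : ℝ) : ℝ :=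
  (1 - A + √((1 - A) ^ 2 + 4 * α * (1 + B))) / (2 * (1 + B))

/-- the smaller point of the two-cycle -/
noncomputable def lower (α A B : ℝ) : ℝ := (1 - A - √((1 - A) ^ 2 - 4 * α / (B - 1))) / 2

/-- the larger point of the two-cycle -/
noncomputable def upper (α A B : ℝ) : ℝ := (1 - A + √((1 - A) ^ 2 - 4 * α / (B - 1))) / 2

/-- the positive root `t` of `(A + (B + 1) e) t ^ 2 + B e t = 1 - e` -/
noncomputable def slopeAt (A B e : ℝ) : ℝ :=
  (√((B * e) ^ 2 + 4 * (1 - e) * (A + (B + 1) * e)) - B * e) / (2 * (A + (B + 1) * e))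

lemma par {α A B : ℝ} (hα : 0 < α) (hB : 1 < B) (hA : 0 ≤ A) (hA1 : A < 1)
    (hH : α < (B - 1) * (1 - A) ^ 2 / 4) :
    Helper10K9.BT.Par α A B (lower α A B) (upper α A B) (equilibrium α A B) := by
  have hB1 : 0 < B - 1 := by linarith
  have h1 : 0 < (1 - A) ^ 2 - 4 * α / (B - 1) := by
    rw [sub_pos, div_lt_iff₀ hB1]
    linarith
  have h2 : (√((1 - A) ^ 2 - 4 * α / (B - 1))) ^ 2 = (1 - A) ^ 2 - 4 * α / (B - 1) :=
    Real.sq_sqrt h1.le
  have h3 : 0 < √((1 - A) ^ 2 - 4 * α / (B - 1)) := Real.sqrt_pos.2 h1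
  have h4 : 0 < 4 * α / (B - 1) := by positivity
  have h5 : √((1 - A) ^ 2 - 4 * α / (B - 1)) < 1 - A := by
    rw [Real.sqrt_lt' (by linarith)]
    linarith
  have h6 : 0 ≤ (1 - A) ^ 2 + 4 * α * (1 + B) := by positivity
  have h7 : (√((1 - A) ^ 2 + 4 * α * (1 + B))) ^ 2 = (1 - A) ^ 2 + 4 * α * (1 + B) :=
    Real.sq_sqrt h6
  have h8 : 0 ≤ √((1 - A) ^ 2 + 4 * α * (1 + B)) := Real.sqrt_nonneg _
  refine ⟨hα, hB, hA, ?_, ?_, ?_, ?_, ?_, ?_⟩
  · unfold lower; linarith
  · unfold lower upper; linarith
  · unfold lower upper; ring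
  · unfold lower upper
    have h9 : (1 - A - √((1 - A) ^ 2 - 4 * α / (B - 1))) / 2 *
        ((1 - A + √((1 - A) ^ 2 - 4 * α / (B - 1))) / 2) = α / (B - 1) := by
      linear_combination (-1 / 4) * h2
    rw [h9]
    field_simp
  · unfold equilibrium
    exact div_pos (by linarith) (by linarith)
  · unfold equilibrium
    field_simp
    linear_combination (1 + B) * h7

lemma dom {A B u v : ℝ} (hB : 1 < B) (hA : 0 ≤ A) (h : Admissible A u v) :
    Helper10K9.BT.Dom A B u v := by
  obtain ⟨h1, h2, h3⟩ := h
  refine ⟨h1, h2, ?_⟩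
  have hB0 : 0 < B := by linarith
  rcases hA.eq_or_lt with h4 | h4
  · rcases h1.eq_or_lt with h5 | h5
    · rcases h2.eq_or_lt with h6 | h6
      · exact absurd ⟨h5.symm, h6.symm⟩ (h3 h4.symm)
      · have := mul_pos hB0 h6
        linarith
    · have := mul_nonneg hB0.le h2
      linarith
  · have := mul_nonneg hB0.le h2
    linarith

/-- **The basin of the two-cycle.** For every `α > 0`, `B > 1`, `0 ≤ A < 1` with
`α < (B - 1) (1 - A) ^ 2 / 4` there is a function `g` on `[0, ∞)` such that
* `g` is continuous and strictly increasing, `u < g u < e` for `u < e`, `g e = e`, and `e < g u < u`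
  for `u > e`, where `e` is the equilibrium;
* `g (g u) (A + B g u + u) = α + u` for `u ≥ 0`, and `g` is the only nonnegative nondecreasing
  function on `[0, ∞)` with this property;
* `g` has the derivative `slopeAt A B e` at `e`, and a limit `L` at infinity with `g L = 1`;
* for each admissible pair `u = x (-1)`, `v = x 0` and its solution `x`: `x n → e` if and only if
  `v = g u`; `(x (2 n), x (2 n + 1)) → (m, M)` if and only if `v < g u`;
  `(x (2 n), x (2 n + 1)) → (M, m)` if and only if `v > g u`; and for `v = g u` one has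
  `x (n + 1) = g (x n)` and `x` is monotone, and this is the case if and only if all the `x n` are
  on one side of `e`. -/
theorem result (α A B : ℝ) (hα : 0 < α) (hB : 1 < B) (hA : 0 ≤ A) (hA1 : A < 1)
    (hH : α < (B - 1) * (1 - A) ^ 2 / 4) :
    ∃ g : ℝ → ℝ,
      (ContinuousOn g (Ici 0) ∧ StrictMonoOn g (Ici 0) ∧
        (∀ u : ℝ, 0 ≤ u → u < equilibrium α A B → u < g u ∧ g u < equilibrium α A B) ∧
        g (equilibrium α A B) = equilibrium α A B ∧
        ∀ u : ℝ, equilibrium α A B < u → equilibrium α A B < g u ∧ g u < u) ∧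
      ((∀ u : ℝ, 0 ≤ u → g (g u) * (A + B * g u + u) = α + u) ∧
        ∀ h : ℝ → ℝ, (∀ u : ℝ, 0 ≤ u → 0 ≤ h u) → MonotoneOn h (Ici 0) →
          (∀ u : ℝ, 0 ≤ u → h (h u) * (A + B * h u + u) = α + u) → ∀ u : ℝ, 0 ≤ u → h u = g u) ∧
      (HasDerivAt g (slopeAt A B (equilibrium α A B)) (equilibrium α A B) ∧
        ∃ L : ℝ, equilibrium α A B < L ∧ g L = 1 ∧ Tendsto g atTop (𝓝 L)) ∧
      ∀ u v : ℝ, Admissible A u v → ∀ x : ℕ → ℝ, IsSolution α A B u v x →
        (Tendsto x atTop (𝓝 (equilibrium α A B)) ↔ v = g u) ∧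
        (Tendsto (fun n : ℕ => (x (2 * n), x (2 * n + 1))) atTop
          (𝓝 (lower α A B, upper α A B)) ↔ v < g u) ∧
        (Tendsto (fun n : ℕ => (x (2 * n), x (2 * n + 1))) atTop
          (𝓝 (upper α A B, lower α A B)) ↔ g u < v) ∧
        (v = g u → (∀ n, x (n + 1) = g (x n)) ∧ (Monotone x ∨ Antitone x)) ∧
        (v = g u ↔ (∀ n, x n ≤ equilibrium α A B) ∨ ∀ n, equilibrium α A B ≤ x n) := by
  have p := par hα hB hA hA1 hH
  have hB0 : 0 < B := by linarith
  obtain ⟨g, hg⟩ := Helper10K9.BT.exists_g p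
  refine ⟨g, ⟨Helper10K9.BT.g_cont p hg, Helper10K9.BT.g_mono p hg,
    fun u hu h => Helper10K9.BT.g_lt p hg hu h, Helper10K9.BT.g_e p hg,
    fun u h => Helper10K9.BT.g_gt p hg h⟩,
    ⟨fun u hu => Helper10K9.BT.g_eq p hg hu,
      fun h h0 hm he u hu => Helper10K9.BT.h_unique p hg h0 hm he hu⟩,
    ⟨Helper10K9.BT.g_deriv p hg, Helper10K9.BT.g_top p hg⟩, ?_⟩
  intro u v huv x hx
  obtain ⟨hx0, hx1, hxr⟩ := hx
  have hd := dom hB hA huv
  have s := Helper10K9.BT.orb_sol hα hB0 hA hd
  set z := Helper10K9.BT.orb α A B u v with hz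
  have hxz : ∀ n, x n = z (n + 1) := by
    have key : ∀ n, x n = z (n + 1) ∧ x (n + 1) = z (n + 2) := by
      intro n
      induction n with
      | zero =>
        refine ⟨hx0, ?_⟩
        rw [hz, Helper10K9.BT.orb]
        exact hx1
      | succ n ih =>
        refine ⟨ih.2, ?_⟩
        have h1 := hxr n
        have h2 : z (n + 3) = (α + z (n + 1)) / (A + B * z (n + 2) + z (n + 1)) := by
          rw [hz, Helper10K9.BT.orb]
        rw [h2, ← ih.1, ← ih.2]
        exact h1
    exact fun n => (key n).1
  have hx : x = fun n => z (n + 1) := funext hxz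
  have hW : Tendsto x atTop (𝓝 (equilibrium α A B)) ↔ v = g u := by
    have h1 : Tendsto x atTop (𝓝 (equilibrium α A B)) ↔
        Helper10K9.BT.Lim z (equilibrium α A B) (equilibrium α A B) := by
      rw [hx]
      constructor
      · intro h
        exact Helper10K9.BT.lim_of_tendsto ((tendsto_add_atTop_iff_nat 1).1 h)
      · intro h
        exact (tendsto_add_atTop_iff_nat 1).2 h.tendsto
    rw [h1]
    exact Helper10K9.BT.iff_W p hg s
  have hpair : ∀ a b : ℝ, Tendsto (fun n : ℕ => (x (2 * n), x (2 * n + 1))) atTop (𝓝 (a, b)) ↔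
      Helper10K9.BT.Lim z b a := by
    intro a b
    rw [← Helper10K9.BT.lim_shift z a b, nhds_prod_eq, tendsto_prod_iff', hx]
    rfl
  have hone : v = g u ↔ (∀ n, x n ≤ equilibrium α A B) ∨ ∀ n, equilibrium α A B ≤ x n := by
    constructor
    · intro h
      have h1 : Helper10K9.BT.Lim z (equilibrium α A B) (equilibrium α A B) :=
        (Helper10K9.BT.iff_W p hg s).2 h
      rcases Helper10K9.BT.w_mono p hg s h1 with h2 | h2
      · exact Or.inl fun n => by rw [hxz n]; exact h2.2 _
      · exact Or.inr fun n => by rw [hxz n]; exact h2.2 _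
    · intro h
      have h1 := Helper10K9.BT.one_side p hg s (by
        rcases h with h | h
        · exact Or.inl fun n => by rw [← hxz n]; exact h n
        · exact Or.inr fun n => by rw [← hxz n]; exact h n)
      exact (Helper10K9.BT.iff_W p hg s).1 h1
  refine ⟨hW, ?_, ?_, ?_, hone⟩
  · rw [hpair]
    exact Helper10K9.BT.iff_P p hg s
  · rw [hpair]
    exact Helper10K9.BT.iff_N p hg s
  · intro h
    have h1 : Helper10K9.BT.Lim z (equilibrium α A B) (equilibrium α A B) :=
      (Helper10K9.BT.iff_W p hg s).2 h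
    refine ⟨fun n => ?_, ?_⟩
    · rw [hxz, hxz]
      exact Helper10K9.BT.w_step p hg s h1 (n + 1)
    · rcases Helper10K9.BT.w_mono p hg s h1 with h2 | h2
      · left
        intro i j hij
        rw [hxz, hxz]
        exact h2.1 (by omega)
      · right
        intro i j hij
        rw [hxz, hxz]
        exact h2.1 (by omega)

end Pool.Agent.Results.MP_a0c75d_an.StableCurve
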